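import Pool.Agent.W91.BH.Stm

set_option autoImplicit false

namespace Pool.Agent.W785.BH.Cov2

open Pool.Agent.W91.BH

variable {n : ℕ}

/-- The ancestor of level `l`. -/
def anc (Q : Idx n) (l : ℕ) : Idx n := (l, fun i => Q.2 i / 2 ^ (Q.1 - l))

lemma floor_div {k l : ℕ} (h : l ≤ k) (t : ℝ) :
    ⌊(2 : ℝ) ^ l * t⌋ = ⌊(2 : ℝ) ^ k * t⌋ / 2 ^ (k - l) := by
  set f := ⌊(2 : ℝ) ^ k * t⌋ with hf
  have hm : (0 : ℤ) < 2 ^ (k - l) := by positivity
  have h1 : f / 2 ^ (k - l) * 2 ^ (k - l) ≤ f := Int.ediv_mul_le _ hm.ne'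
  have h2 : f + 1 ≤ (f / 2 ^ (k - l) + 1) * 2 ^ (k - l) := Int.lt_ediv_add_one_mul_self _ hm
  have h3 : (f : ℝ) ≤ 2 ^ k * t := Int.floor_le _
  have h4 : (2 : ℝ) ^ k * t < f + 1 := Int.lt_floor_add_one _
  have e : (2 : ℝ) ^ k = 2 ^ l * 2 ^ (k - l) := by rw [← pow_add]; congr 1; omega
  have hmr : (0 : ℝ) < 2 ^ (k - l) := by positivity
  generalize hq : f / 2 ^ (k - l) = q at h1 h2
  have h1' : (q : ℝ) * 2 ^ (k - l) ≤ f := by exact_mod_cast h1
  have h2' : (f : ℝ) + 1 ≤ ((q : ℝ) + 1) * 2 ^ (k - l) := by exact_mod_cast h2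
  rw [Int.floor_eq_iff]
  constructor
  · have : (q : ℝ) * 2 ^ (k - l) ≤ (2 ^ l * t) * 2 ^ (k - l) := by
      calc (q : ℝ) * 2 ^ (k - l) ≤ 2 ^ k * t := h1'.trans h3
        _ = (2 ^ l * t) * 2 ^ (k - l) := by rw [e]; ring
    exact le_of_mul_le_mul_right this hmr
  · have : (2 ^ l * t) * 2 ^ (k - l) < ((q : ℝ) + 1) * 2 ^ (k - l) := by
      calc (2 ^ l * t) * 2 ^ (k - l) = 2 ^ k * t := by rw [e]; ring
        _ < f + 1 := h4
        _ ≤ _ := h2'
    exact lt_of_mul_lt_mul_right this hmr.le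

lemma mem_anc {Q : Idx n} {l : ℕ} (hl : l ≤ Q.1) {x : E n} (hx : x ∈ cube n Q) :
    x ∈ cube n (anc Q l) := by
  intro i
  have := hx i
  simp only [anc]
  rw [floor_div hl, this]

lemma eq_anc {P Q : Idx n} (hl : P.1 ≤ Q.1) {x : E n} (hx : x ∈ cube n Q) (hx' : x ∈ cube n P) :
    P = anc Q P.1 := by
  refine Prod.ext rfl (funext fun i => ?_)
  have h1 := hx' i
  have h2 := mem_anc hl hx i
  simp only [anc] at h2 ⊢
  exact h1.symm.trans h2

lemma sub_of_mem {P Q : Idx n} (hl : P.1 ≤ Q.1) {x : E n} (hx : x ∈ cube n Q)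
    (hx' : x ∈ cube n P) : cube n Q ⊆ cube n P := by
  rw [eq_anc hl hx hx']
  exact fun y hy => mem_anc hl hy

/-- a point of the cube -/
noncomputable def pt (Q : Idx n) (s : ℝ) : E n :=
  WithLp.toLp 2 (fun i => ((Q.2 i : ℝ) + s) / 2 ^ Q.1)

lemma pt_mem (Q : Idx n) {s : ℝ} (h0 : 0 ≤ s) (h1 : s < 1) : pt Q s ∈ cube n Q := by
  intro i
  simp only [pt]
  have : (2 : ℝ) ^ Q.1 * (((Q.2 i : ℝ) + s) / 2 ^ Q.1) = (Q.2 i : ℝ) + s := by
    field_simp
  rw [this, Int.floor_eq_iff]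
  constructor <;> linarith

lemma level_le (hn : 0 < n) {P Q : Idx n} (h : cube n Q ⊆ cube n P) : P.1 ≤ Q.1 := by
  by_contra hlt
  push Not at hlt
  obtain ⟨m, hm⟩ := Nat.exists_eq_add_of_lt hlt
  have h0 := h (pt_mem Q (le_refl (0 : ℝ)) one_pos) ⟨0, hn⟩
  have h1 := h (pt_mem Q (s := 1 / 2) (by norm_num) (by norm_num)) ⟨0, hn⟩
  simp only [pt] at h0 h1
  rw [hm] at h0 h1
  have e0 : (2 : ℝ) ^ (Q.1 + m + 1) * (((Q.2 ⟨0, hn⟩ : ℝ) + 0) / 2 ^ Q.1)
      = ((Q.2 ⟨0, hn⟩ * 2 ^ (m + 1) : ℤ) : ℝ) := by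
    push_cast
    rw [add_assoc, pow_add]
    field_simp
    ring
  have e1 : (2 : ℝ) ^ (Q.1 + m + 1) * (((Q.2 ⟨0, hn⟩ : ℝ) + 1 / 2) / 2 ^ Q.1)
      = ((Q.2 ⟨0, hn⟩ * 2 ^ (m + 1) + 2 ^ m : ℤ) : ℝ) := by
    push_cast
    rw [add_assoc, pow_add]
    field_simp
    ring
  rw [e0, Int.floor_intCast] at h0
  rw [e1, Int.floor_intCast] at h1
  have : (0 : ℤ) < 2 ^ m := by positivity
  omega

lemma anc_anc (R : Idx n) {l j : ℕ} (hl : l ≤ R.1) (hj : j ≤ l) :
    anc (anc R l) j = anc R j := by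
  refine Prod.ext rfl (funext fun i => ?_)
  simp only [anc]
  rw [Int.ediv_ediv_of_nonneg (by positivity), ← pow_add]
  congr 2
  omega

theorem cov2 : S_COV2 := by
  intro n d K F0 ε a hn hd hK hε ha
  classical
  set w : Idx n → ℝ := fun Q => (2 : ℝ) ^ (-((Q.1 : ℝ) * d)) with hw
  have wpos : ∀ Q, 0 < w Q := fun Q => by simp only [hw]; positivity
  set G : Finset (Idx n) := F0.biUnion (fun R => (Finset.range (R.1 + 1)).image (fun l => anc R l))
    with hG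
  have memG : ∀ {P : Idx n}, P ∈ G ↔ ∃ R ∈ F0, ∃ l, l ≤ R.1 ∧ anc R l = P := by
    intro P
    simp only [hG, Finset.mem_biUnion, Finset.mem_image, Finset.mem_range, Nat.lt_succ_iff]
  have hF0G : F0 ⊆ G := by
    intro R hR
    refine memG.2 ⟨R, hR, R.1, le_rfl, ?_⟩
    refine Prod.ext rfl (funext fun i => ?_)
    simp [anc]
  obtain ⟨F, hF, hmin⟩ := Finset.exists_min_image
    (G.powerset.filter (fun F => K ⊆ ⋃ Q ∈ F, cube n Q)) (fun F => ∑ Q ∈ F, w Q)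
    ⟨F0, by simp only [Finset.mem_filter, Finset.mem_powerset]; exact ⟨hF0G, hK⟩⟩
  simp only [Finset.mem_filter, Finset.mem_powerset] at hF hmin
  obtain ⟨hFG, hFK⟩ := hF
  have hFε : ∑ Q ∈ F, w Q < ε := lt_of_le_of_lt (hmin F0 ⟨hF0G, hK⟩) hε
  refine ⟨F, hFK, hFε, ?_, ?_, ?_⟩
  · intro Q hQ
    have h1 : w Q ≤ ∑ Q ∈ F, w Q :=
      Finset.single_le_sum (f := w) (fun Q _ => (wpos Q).le) hQ
    have h2 : (2 : ℝ) ^ (-((Q.1 : ℝ) * d)) < (2 : ℝ) ^ (-((a : ℝ) * d)) :=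
      lt_of_le_of_lt h1 (lt_of_lt_of_le hFε ha)
    have h3 := (Real.rpow_lt_rpow_left_iff (by norm_num : (1 : ℝ) < 2)).1 h2
    have h4 : (a : ℝ) * d < (Q.1 : ℝ) * d := by linarith
    have h5 : (a : ℝ) < Q.1 := lt_of_mul_lt_mul_right h4 hd.le
    exact_mod_cast h5.le
  · intro Q hQ Q' hQ' hne
    by_contra hnd
    rw [Set.not_disjoint_iff] at hnd
    obtain ⟨x, hx, hx'⟩ := hnd
    -- remove the smaller one
    have key : ∀ A B : Idx n, A ∈ F → B ∈ F → A ≠ B → cube n A ⊆ cube n B → False := by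
      intro A B hA hB hAB hsub
      have hcov : K ⊆ ⋃ Q ∈ F.erase A, cube n Q := by
        intro y hy
        have := hFK hy
        simp only [Set.mem_iUnion] at this ⊢
        obtain ⟨C, hC, hyC⟩ := this
        by_cases hCA : C = A
        · exact ⟨B, Finset.mem_erase.2 ⟨hAB.symm, hB⟩, hsub (hCA ▸ hyC)⟩
        · exact ⟨C, Finset.mem_erase.2 ⟨hCA, hC⟩, hyC⟩
      have h1 := hmin (F.erase A) ⟨(Finset.erase_subset _ _).trans hFG, hcov⟩
      have h2 := Finset.add_sum_erase F w hA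
      have h3 := wpos A
      linarith
    rcases le_total Q.1 Q'.1 with h | h
    · exact key Q' Q hQ' hQ hne.symm (sub_of_mem h hx' hx)
    · exact key Q Q' hQ hQ' hne (sub_of_mem h hx hx')
  · intro P
    by_contra hgt
    push Not at hgt
    set FP := F.filter (fun Q => cube n Q ⊆ cube n P) with hFP
    have hne : FP.Nonempty := by
      rw [Finset.nonempty_iff_ne_empty]
      intro he
      rw [he, Finset.sum_empty] at hgt
      have := wpos P
      simp only [hw] at this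
      linarith
    obtain ⟨Q, hQ⟩ := hne
    have hQF : Q ∈ F := (Finset.mem_filter.1 hQ).1
    have hQP : cube n Q ⊆ cube n P := (Finset.mem_filter.1 hQ).2
    have hlev := level_le hn hQP
    have hPG : P ∈ G := by
      obtain ⟨R, hR, l, hl, hRl⟩ := memG.1 (hFG hQF)
      have hc := pt_mem Q (le_refl (0 : ℝ)) one_pos
      have hP := eq_anc hlev hc (hQP hc)
      refine memG.2 ⟨R, hR, P.1, ?_, ?_⟩
      · have : Q.1 = l := by rw [← hRl]; rfl
        omega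
      · have h1 : Q.1 = l := by rw [← hRl]; rfl
        rw [hP, ← hRl]
        exact (anc_anc R hl (by simp only [anc]; omega)).symm
    have hcov : K ⊆ ⋃ Q ∈ insert P (F \ FP), cube n Q := by
      intro y hy
      have := hFK hy
      simp only [Set.mem_iUnion] at this ⊢
      obtain ⟨C, hC, hyC⟩ := this
      by_cases hCP : cube n C ⊆ cube n P
      · exact ⟨P, Finset.mem_insert_self _ _, hCP hyC⟩
      · refine ⟨C, Finset.mem_insert_of_mem (Finset.mem_sdiff.2 ⟨hC, ?_⟩), hyC⟩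
        intro h
        exact hCP (Finset.mem_filter.1 h).2
    have hsubG : insert P (F \ FP) ⊆ G := by
      intro C hC
      rcases Finset.mem_insert.1 hC with h | h
      · exact h ▸ hPG
      · exact hFG (Finset.mem_sdiff.1 h).1
    have h1 := hmin (insert P (F \ FP)) ⟨hsubG, hcov⟩
    have hPn : P ∉ F \ FP := by
      intro h
      have h2 := Finset.mem_sdiff.1 h
      exact h2.2 (Finset.mem_filter.2 ⟨h2.1, subset_rfl⟩)
    rw [Finset.sum_insert hPn] at h1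
    have h2 := Finset.sum_sdiff (f := w) (Finset.filter_subset (fun Q => cube n Q ⊆ cube n P) F)
    rw [← hFP] at h2
    have h3 : w P < ∑ Q ∈ FP, w Q := hgt
    linarith

end Pool.Agent.W785.BH.Cov2
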